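import Mathlib
import Pool.Agent.U594.VOR.Main

set_option autoImplicit false

/-!
# No tiling of an infinite-dimensional separable Hilbert space by translates of a bounded body is of Voronoi type

Let `H` be an infinite-dimensional real Hilbert space and `T` a bounded invertible operator, so that
`‖T x‖` is an equivalent Hilbert norm.

(1) If `H` is separable and the translates `a + K`, `a ∈ A`, of a bounded set `K` with nonempty interior tile
`H`, then not every tile `a + K` is contained in the Voronoi cell of `a` with respect to the set `A` and the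
norm `‖T x‖`, and the same holds for the cells of power (Laguerre) diagrams, with weights `w a` bounded below.

(2) For every countable set `A` (and weights bounded below) and every `D` there is a point `x` such that no
`a ∈ A` with `‖x - a‖ ≤ D` is nearest to `x`: a countable relatively dense set is never proximinal.

(3) Let `Y` be an infinite-dimensional normed space. A function on the dual space of `Y` which is the
attained maximum of countably many weak-star continuous affine functions has an unbounded sublevel set.

Proof of (3). Otherwise a sublevel set `F ≤ r` (`r` not the minimum) is weak-star compact, and by the theorem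
of Baire the maximum `F` is equal to one of the affine functions on a relatively weak-star open piece of it,
which contains a point `z` with `F z < r`. In a direction which is annihilated by the finitely many vectors
which define the piece and by the linear part of the affine function, `F` is constant as long as it is at
most `r`; so it is constant on the whole ray by convexity, and the sublevel set is unbounded.
-/

open Bornology Set Topology TopologicalSpace

namespace Pool.Agent.Results.MP_3191e9_an.NoVoronoiTiling

/-- The translates `a + K`, `a ∈ A`, cover the space and their interiors are pairwise disjoint. -/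
def IsTiling {H : Type} [NormedAddCommGroup H] (K A : Set H) : Prop :=
  (∀ x, ∃ a ∈ A, x - a ∈ K) ∧
    ∀ a ∈ A, ∀ b ∈ A, a ≠ b → Disjoint (interior {x | x - a ∈ K}) (interior {x | x - b ∈ K})

/-- Every translate `a + K`, `a ∈ A`, is contained in the cell of `a` of the power diagram of `A` with the
weights `w`, with respect to the norm `‖T x‖`. For `w = 0` these are the Voronoi cells. -/
def InCells {H : Type} [NormedAddCommGroup H] [InnerProductSpace ℝ H] (T : H ≃L[ℝ] H) (K A : Set H)
    (w : H → ℝ) : Prop :=
  ∀ a ∈ A, ∀ x, x - a ∈ K → ∀ b ∈ A, ‖T (x - a)‖ ^ 2 - w a ≤ ‖T (x - b)‖ ^ 2 - w b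

theorem part_two (H : Type) [NormedAddCommGroup H] [InnerProductSpace ℝ H] [CompleteSpace H]
    (hH : ¬ FiniteDimensional ℝ H) (T : H ≃L[ℝ] H) (A : Set H) (w : H → ℝ) (D : ℝ)
    (hA : A.Countable) (hw : BddBelow (w '' A)) :
    ∃ x, ∀ a ∈ A, ‖x - a‖ ≤ D → ∃ b ∈ A, ‖T (x - b)‖ ^ 2 - w b < ‖T (x - a)‖ ^ 2 - w a := by
  by_contra hcon
  push Not at hcon
  have : Countable A := hA.to_subtype
  obtain ⟨m, hm⟩ := hw
  have hT : ∀ (y : H) (a : H), T (T.symm y - a) = y - T a := by
    intro y a
    rw [map_sub, T.apply_symm_apply]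
  refine Pool.Agent.U594.VOR.power_diagram hH (fun a : A => T (a : H)) (fun a : A => w (a : H)) ?_
    ((‖(T : H →L[ℝ] H)‖ * |D|) ^ 2 - m) ?_
  · intro y
    obtain ⟨a, ha, _, h2⟩ := hcon (T.symm y)
    refine ⟨⟨a, ha⟩, fun b => ?_⟩
    have h3 := h2 b b.2
    rw [hT, hT] at h3
    exact h3
  · intro y
    obtain ⟨a, ha, h1, _⟩ := hcon (T.symm y)
    refine ⟨⟨a, ha⟩, ?_⟩
    have h3 : m ≤ w a := hm ⟨a, ha, rfl⟩
    have h4 : ‖y - T a‖ ≤ ‖(T : H →L[ℝ] H)‖ * |D| := by
      rw [← hT]
      refine ((T : H →L[ℝ] H).le_opNorm _).trans ?_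
      exact mul_le_mul_of_nonneg_left (h1.trans (le_abs_self D)) (norm_nonneg _)
    have h5 : ‖y - T a‖ ^ 2 ≤ (‖(T : H →L[ℝ] H)‖ * |D|) ^ 2 :=
      pow_le_pow_left₀ (norm_nonneg _) h4 2
    show ‖y - T a‖ ^ 2 - w a ≤ _
    linarith

/-- **No tiling by translates of a bounded body in a separable infinite-dimensional Hilbert space is a
Voronoi or power diagram**, with the underlying facts on countable sets and on maxima of countably many affine
functions. -/
theorem result :
    (∀ (H : Type) [NormedAddCommGroup H] [InnerProductSpace ℝ H] [CompleteSpace H]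
      [SeparableSpace H], ¬ FiniteDimensional ℝ H → ∀ (T : H ≃L[ℝ] H) (K A : Set H) (w : H → ℝ),
      IsBounded K → (interior K).Nonempty → IsTiling K A → BddBelow (w '' A) →
      ¬ InCells T K A w) ∧
    (∀ (H : Type) [NormedAddCommGroup H] [InnerProductSpace ℝ H] [CompleteSpace H],
      ¬ FiniteDimensional ℝ H → ∀ (T : H ≃L[ℝ] H) (A : Set H) (w : H → ℝ) (D : ℝ),
      A.Countable → BddBelow (w '' A) →
      ∃ x, ∀ a ∈ A, ‖x - a‖ ≤ D → ∃ b ∈ A, ‖T (x - b)‖ ^ 2 - w b < ‖T (x - a)‖ ^ 2 - w a) ∧
    (∀ (Y : Type) [NormedAddCommGroup Y] [NormedSpace ℝ Y], ¬ FiniteDimensional ℝ Y →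
      ∀ (v : ℕ → Y) (c : ℕ → ℝ),
      (∀ φ : StrongDual ℝ Y, ∃ i, ∀ j, φ (v j) + c j ≤ φ (v i) + c i) →
      ∃ r : ℝ, ¬ IsBounded {φ : StrongDual ℝ Y | ∀ j, φ (v j) + c j ≤ r}) := by
  refine ⟨?_, part_two, ?_⟩
  · intro H _ _ _ _ hH T K A w hK hint hA hw hcell
    obtain ⟨D, hD⟩ := hK.exists_norm_le
    have hAc : A.Countable := by
      have hdis : A.PairwiseDisjoint (fun a => interior {x : H | x - a ∈ K}) :=
        fun a ha b hb hab => hA.2 a ha b hb hab
      refine hdis.countable_of_isOpen (fun a _ => isOpen_interior) (fun a _ => ?_)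
      obtain ⟨k, hk⟩ := hint
      refine ⟨k + a, ?_⟩
      have h1 : {x : H | x - a ∈ K} = (fun x => x - a) ⁻¹' K := rfl
      have h2 : (fun x : H => x - a) ⁻¹' interior K ⊆ interior {x : H | x - a ∈ K} :=
        interior_maximal (fun x (hx : x - a ∈ interior K) => (interior_subset hx : x - a ∈ K))
          (isOpen_interior.preimage (continuous_id.sub continuous_const))
      apply h2
      show k + a - a ∈ interior K
      rw [add_sub_cancel_right]
      exact hk
    obtain ⟨x, hx⟩ := part_two H hH T A w D hAc hw
    obtain ⟨a, ha, hxa⟩ := hA.1 x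
    obtain ⟨b, hb, hlt⟩ := hx a ha (hD _ hxa)
    exact absurd (hcell a ha x hxa b hb) (not_le.2 hlt)
  · intro Y _ _ hY v c hmax
    by_contra hcon
    push Not at hcon
    exact Pool.Agent.U594.VOR.dual_main hY v c hmax hcon

end Pool.Agent.Results.MP_3191e9_an.NoVoronoiTiling
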